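import Mathlib

/-!
# Locally univalent circle packings of the hexagonal complex are Doyle spirals

The vertex `v_{n,m}` of the hexagonal complex `H` (the lattice point `n + m ω`, `ω = exp (i π / 3)`)
is encoded by the pair `(n, m) : ℤ × ℤ`.  Every locally univalent circle packing for `H` in the
plane has a label of the form `c * a ^ n * b ^ m`, i.e. it is a regular hexagonal packing or a Doyle
spiral.

Proof.  (1) A ring lemma for a univalent flower with six petals bounds the ratios of the radii of
adjacent circles.  (2) Let `h` be the difference of the logarithms of the label and of the label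
shifted by a lattice vector.  It is bounded by (1).  Both labels have angle sum `2 π` everywhere;
since the matrix of derivatives of the face angles with respect to the logarithms of the radii is
symmetric with off-diagonal entries in `(0, 1/2]`, `h` is harmonic for symmetric conductances in
`(0, 1]` on the edges of the triangular lattice.  (3) This network is recurrent (logarithmic cut off
functions), so the bounded harmonic function `h` is constant.
-/

set_option autoImplicit false

namespace Pool.Agent.Results.MP_5725d1_gt.DoyleRigidity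

open Real Finset

/-! ### Definitions -/

/-- The six lattice vectors of length one, `ω ^ i` for `i = 0, ..., 5`, in the basis `1, ω` with
`ω = exp (i π / 3)`, in counterclockwise order. The neighbours of the vertex `v` are `v + dir i`,
and the faces at `v` are `⟨v, v + dir i, v + dir (i + 1)⟩` (indices modulo six), positively
oriented. -/
def dir : Fin 6 → ℤ × ℤ := ![(1, 0), (0, 1), (-1, 1), (-1, 0), (0, -1), (1, -1)]

/-- The angle, opposite to the side `b + c`, in the Euclidean triangle with side lengths `a + b`,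
`a + c`, `b + c` (law of cosines): the angle at the centre of the circle of radius `a` in the
triangle of centres of three mutually tangent circles with radii `a, b, c`. -/
noncomputable def faceAngle (a b c : ℝ) : ℝ :=
  arccos (((a + b) ^ 2 + (a + c) ^ 2 - (b + c) ^ 2) / (2 * (a + b) * (a + c)))

/-- `R` is a packing label for the hexagonal complex: it is positive and at every vertex the six
face angles add up to `2 π`. -/
structure IsPackingLabel (R : ℤ × ℤ → ℝ) : Prop where
  pos : ∀ v, 0 < R v
  angleSum_eq : ∀ v, ∑ i : Fin 6, faceAngle (R v) (R (v + dir i)) (R (v + dir (i + 1))) = 2 * π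

/-- The circles with centres `z v` and radii `R v` form a circle packing for the hexagonal complex:
`R` is a packing label, circles of adjacent vertices are externally tangent, and the three circles
of every face are positively oriented. The circles may overlap globally. -/
structure IsCirclePacking (z : ℤ × ℤ → ℂ) (R : ℤ × ℤ → ℝ) : Prop where
  label : IsPackingLabel R
  tangent : ∀ v i, dist (z v) (z (v + dir i)) = R v + R (v + dir i)
  oriented : ∀ v i, 0 < (starRingEnd ℂ (z (v + dir i) - z v) * (z (v + dir (i + 1)) - z v)).im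

/-- Local univalence: for every vertex `v` the seven circles of the flower at `v` (the circle of `v`
and those of its six neighbours) have pairwise disjoint interiors. -/
def LocallyUnivalent (z : ℤ × ℤ → ℂ) (R : ℤ × ℤ → ℝ) : Prop :=
  ∀ v, (∀ i, Disjoint (Metric.ball (z v) (R v)) (Metric.ball (z (v + dir i)) (R (v + dir i)))) ∧
    ∀ i j, i ≠ j → Disjoint (Metric.ball (z (v + dir i)) (R (v + dir i)))
      (Metric.ball (z (v + dir j)) (R (v + dir j)))

/-! ### The Liouville theorem -/

theorem dir_add_three (i : Fin 6) : dir (i + 3) = - dir i := by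
  fin_cases i <;> rfl

/-- sup norm of a lattice point -/
def nrm (v : ℤ × ℤ) : ℕ := max v.1.natAbs v.2.natAbs

theorem nrm_add_dir_le (v : ℤ × ℤ) (i : Fin 6) : nrm (v + dir i) ≤ nrm v + 1 := by
  unfold nrm
  fin_cases i <;> simp [dir] <;> omega

theorem nrm_le_add_dir (v : ℤ × ℤ) (i : Fin 6) : nrm v ≤ nrm (v + dir i) + 1 := by
  unfold nrm
  fin_cases i <;> simp [dir] <;> omega

/-- radial weights -/
noncomputable def wt (r N k : ℕ) : ℝ := if r ≤ k ∧ k < N then 1 / ((k : ℝ) + 1) else 0

/-- cut off profile -/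
noncomputable def prof (r N k : ℕ) : ℝ := ∑ j ∈ (range N).filter (fun j => k ≤ j), wt r N j

theorem prof_sub (r N k : ℕ) : prof r N k - prof r N (k + 1) = wt r N k := by
  unfold prof
  by_cases hk : k < N
  · have : (range N).filter (fun j => k ≤ j) = insert k ((range N).filter (fun j => k + 1 ≤ j)) := by
      ext j
      simp only [mem_filter, mem_range, mem_insert]
      omega
    rw [this, sum_insert (by simp)]
    ring
  · have h1 : (range N).filter (fun j => k ≤ j) = ∅ := by
      ext j
      simp only [mem_filter, mem_range, Finset.notMem_empty, iff_false]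
      omega
    have h2 : (range N).filter (fun j => k + 1 ≤ j) = ∅ := by
      ext j
      simp only [mem_filter, mem_range, Finset.notMem_empty, iff_false]
      omega
    rw [h1, h2]
    simp [wt, hk]

theorem prof_of_le (r N k : ℕ) (hk : k ≤ r) : prof r N k = prof r N 0 := by
  unfold prof
  have h : ∀ k ≤ r, ∑ j ∈ (range N).filter (fun j => k ≤ j), wt r N j
      = ∑ j ∈ (range N).filter (fun j => r ≤ j), wt r N j := by
    intro k hk
    symm
    apply sum_subset
    · intro j
      simp only [mem_filter, mem_range]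
      omega
    · intro j hj hj'
      simp only [mem_filter, mem_range] at hj hj'
      unfold wt
      rw [if_neg]
      omega
  rw [h k hk, h 0 (Nat.zero_le _)]

theorem prof_of_ge (r N k : ℕ) (hk : N ≤ k) : prof r N k = 0 := by
  unfold prof
  have h1 : (range N).filter (fun j => k ≤ j) = ∅ := by
    ext j
    simp only [mem_filter, mem_range, Finset.notMem_empty, iff_false]
    omega
  rw [h1]
  simp

theorem wt_nonneg (r N k : ℕ) : 0 ≤ wt r N k := by
  unfold wt
  split_ifs
  · positivity
  · exact le_rfl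

theorem sum_wt_sq (r N : ℕ) : ∑ k ∈ range N, ((k : ℝ) + 1) * wt r N k ^ 2 = prof r N 0 := by
  unfold prof
  simp only [Nat.zero_le, Finset.filter_true]
  apply sum_congr rfl
  intro k _
  unfold wt
  split_ifs
  · field_simp
  · simp

theorem sum_wt_sq_le (r N M : ℕ) :
    ∑ k ∈ range M, ((k : ℝ) + 1) * wt r N k ^ 2 ≤ prof r N 0 := by
  rw [← sum_wt_sq]
  calc ∑ k ∈ range M, ((k : ℝ) + 1) * wt r N k ^ 2
      ≤ ∑ k ∈ range (N + M), ((k : ℝ) + 1) * wt r N k ^ 2 := by
        apply sum_le_sum_of_subset_of_nonneg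
        · intro j
          simp only [mem_range]
          omega
        · intro j _ _
          positivity
    _ = ∑ k ∈ range N, ((k : ℝ) + 1) * wt r N k ^ 2 := by
        symm
        apply sum_subset
        · intro j
          simp only [mem_range]
          omega
        · intro j _ hj
          rw [mem_range] at hj
          unfold wt
          rw [if_neg (by omega)]
          simp

theorem prof_zero_tendsto (r : ℕ) (A : ℝ) : ∃ N, A ≤ prof r N 0 ∧ r < N := by
  have h := Real.tendsto_sum_range_one_div_nat_succ_atTop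
  have h2 := (Filter.tendsto_atTop.1 h (A + ∑ i ∈ range r, 1 / ((i : ℝ) + 1))).and
    (Filter.eventually_gt_atTop r)
  obtain ⟨N, hN, hr⟩ := h2.exists
  refine ⟨N, ?_, hr⟩
  unfold prof
  simp only [Nat.zero_le, Finset.filter_true]
  have : ∑ i ∈ range N, 1 / ((i : ℝ) + 1)
      = ∑ i ∈ range r, 1 / ((i : ℝ) + 1) + ∑ i ∈ Ico r N, 1 / ((i : ℝ) + 1) :=
    (sum_range_add_sum_Ico _ hr.le).symm
  have h3 : ∑ j ∈ range N, wt r N j = ∑ i ∈ Ico r N, 1 / ((i : ℝ) + 1) := by
    symm
    rw [← sum_subset (s₁ := Ico r N) (s₂ := range N)]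
    · apply sum_congr rfl
      intro j hj
      rw [mem_Ico] at hj
      unfold wt
      rw [if_pos hj]
    · intro j hj
      rw [mem_Ico] at hj
      exact mem_range.2 hj.2
    · intro j hj hj'
      rw [mem_Ico] at hj'
      unfold wt
      rw [if_neg]
      exact hj'
  rw [h3]
  linarith

/-- Logarithmic cut off functions: the triangular lattice is recurrent. -/
theorem exists_cutoff (r : ℕ) (ε : ℝ) (hε : 0 < ε) : ∃ φ : ℤ × ℤ → ℝ,
    (Function.support φ).Finite ∧ (∀ v, nrm v ≤ r → φ v = 1) ∧
    ∑' v, ∑ i, (φ v - φ (v + dir i)) ^ 2 ≤ ε := by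
  obtain ⟨N, hN, hr⟩ := prof_zero_tendsto r (max 1 (108 / ε))
  set H := prof r N 0 with hH
  have hH1 : 1 ≤ H := le_trans (le_max_left _ _) hN
  have hH2 : 108 / ε ≤ H := le_trans (le_max_right _ _) hN
  have hHpos : 0 < H := by linarith
  set g : ℕ → ℝ := fun k => prof r N k / H with hg
  have hgsub : ∀ k, g k - g (k + 1) = wt r N k / H := by
    intro k
    rw [hg]
    simp only
    rw [← sub_div, prof_sub]
  -- the box
  set S : Finset (ℤ × ℤ) := (Finset.range (N + 2)).biUnion (fun k => Finset.box k) with hS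
  have hmemS : ∀ v, v ∈ S ↔ nrm v < N + 2 := by
    intro v
    simp only [hS, mem_biUnion, mem_range, Int.mem_box]
    constructor
    · rintro ⟨a, ha, hb⟩
      unfold nrm
      omega
    · intro h
      exact ⟨nrm v, h, rfl⟩
  refine ⟨fun v => g (nrm v), ?_, ?_, ?_⟩
  · apply (S.finite_toSet).subset
    intro v hv
    rw [Finset.mem_coe, hmemS]
    by_contra hcon
    apply hv
    simp only [hg]
    rw [prof_of_ge r N _ (by omega)]
    simp
  · intro v hv
    simp only [hg]
    rw [prof_of_le r N _ hv, ← hH]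
    field_simp
  · -- energy
    have hbound : ∀ v i, (g (nrm v) - g (nrm (v + dir i))) ^ 2 ≤
        (wt r N (nrm v) / H) ^ 2 + (wt r N (nrm v - 1) / H) ^ 2 := by
      intro v i
      have h1 := nrm_add_dir_le v i
      have h2 := nrm_le_add_dir v i
      rcases (show nrm (v + dir i) = nrm v ∨ nrm (v + dir i) = nrm v + 1 ∨
        (nrm (v + dir i) = nrm v - 1 ∧ 1 ≤ nrm v) by omega) with h | h | ⟨h, h'⟩
      · rw [h, sub_self, zero_pow (by norm_num)]
        positivity
      · rw [h, hgsub]
        have : 0 ≤ (wt r N (nrm v - 1) / H) ^ 2 := by positivity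
        linarith
      · rw [h]
        have h3 := hgsub (nrm v - 1)
        rw [Nat.sub_add_cancel h'] at h3
        have : (g (nrm v) - g (nrm v - 1)) ^ 2 = (wt r N (nrm v - 1) / H) ^ 2 := by
          rw [← h3]
          ring
        rw [this]
        have : 0 ≤ (wt r N (nrm v) / H) ^ 2 := by positivity
        linarith
    have hzero : ∀ v, v ∉ S → ∑ i, (g (nrm v) - g (nrm (v + dir i))) ^ 2 = 0 := by
      intro v hv
      rw [hmemS] at hv
      apply sum_eq_zero
      intro i _
      have h2 := nrm_le_add_dir v i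
      simp only [hg]
      rw [prof_of_ge r N _ (by omega), prof_of_ge r N _ (by omega)]
      simp
    rw [tsum_eq_sum (s := S) (fun v hv => hzero v hv)]
    have hcard : ∀ k, ((Finset.box k : Finset (ℤ × ℤ)).card : ℝ) ≤ 8 * k + 1 := by
      intro k
      rcases Nat.eq_zero_or_pos k with h | h
      · subst h
        simp
      · rw [Int.card_box (by omega)]
        push_cast
        linarith
    calc ∑ v ∈ S, ∑ i, (g (nrm v) - g (nrm (v + dir i))) ^ 2
        ≤ ∑ v ∈ S, 6 * ((wt r N (nrm v) / H) ^ 2 + (wt r N (nrm v - 1) / H) ^ 2) := by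
          apply sum_le_sum
          intro v _
          calc ∑ i, (g (nrm v) - g (nrm (v + dir i))) ^ 2
              ≤ ∑ _i : Fin 6, ((wt r N (nrm v) / H) ^ 2 + (wt r N (nrm v - 1) / H) ^ 2) :=
                sum_le_sum (fun i _ => hbound v i)
            _ = _ := by
                rw [sum_const, card_univ, Fintype.card_fin, nsmul_eq_mul]
                norm_num
      _ = ∑ k ∈ range (N + 2), ∑ v ∈ (Finset.box k : Finset (ℤ × ℤ)),
            6 * ((wt r N (nrm v) / H) ^ 2 + (wt r N (nrm v - 1) / H) ^ 2) := by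
          rw [hS, sum_biUnion]
          intro a _ b _ hab
          rw [Function.onFun, Finset.disjoint_left]
          intro v hva hvb
          rw [Int.mem_box] at hva hvb
          exact hab (hva.symm.trans hvb)
      _ = ∑ k ∈ range (N + 2), ∑ v ∈ (Finset.box k : Finset (ℤ × ℤ)),
            6 * ((wt r N k / H) ^ 2 + (wt r N (k - 1) / H) ^ 2) := by
          apply sum_congr rfl
          intro k _
          apply sum_congr rfl
          intro v hv
          rw [Int.mem_box] at hv
          have : nrm v = k := hv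
          rw [this]
      _ ≤ ∑ k ∈ range (N + 2), (8 * k + 1) *
            (6 * ((wt r N k / H) ^ 2 + (wt r N (k - 1) / H) ^ 2)) := by
          apply sum_le_sum
          intro k _
          rw [sum_const, nsmul_eq_mul]
          apply mul_le_mul_of_nonneg_right (hcard k)
          positivity
      _ = ∑ k ∈ range (N + 2), (8 * k + 1) * 6 * (wt r N k / H) ^ 2
            + ∑ k ∈ range (N + 2), (8 * k + 1) * 6 * (wt r N (k - 1) / H) ^ 2 := by
          rw [← sum_add_distrib]
          apply sum_congr rfl
          intro k _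
          ring
      _ ≤ 48 / H + 60 / H := by
          apply add_le_add
          · calc ∑ k ∈ range (N + 2), (8 * (k : ℝ) + 1) * 6 * (wt r N k / H) ^ 2
                ≤ ∑ k ∈ range (N + 2), (48 / H ^ 2) * (((k : ℝ) + 1) * wt r N k ^ 2) := by
                  apply sum_le_sum
                  intro k _
                  rw [div_pow]
                  have : (8 * (k : ℝ) + 1) * 6 ≤ 48 * ((k : ℝ) + 1) := by linarith
                  calc (8 * (k : ℝ) + 1) * 6 * (wt r N k ^ 2 / H ^ 2)
                      ≤ 48 * ((k : ℝ) + 1) * (wt r N k ^ 2 / H ^ 2) :=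
                        mul_le_mul_of_nonneg_right this (by positivity)
                    _ = _ := by ring
              _ = (48 / H ^ 2) * ∑ k ∈ range (N + 2), (((k : ℝ) + 1) * wt r N k ^ 2) := by
                  rw [mul_sum]
              _ ≤ (48 / H ^ 2) * H :=
                  mul_le_mul_of_nonneg_left (sum_wt_sq_le r N _) (by positivity)
              _ = 48 / H := by
                  field_simp
          · rw [sum_range_succ']
            calc ∑ k ∈ range (N + 1), (8 * ((k + 1 : ℕ) : ℝ) + 1) * 6 * (wt r N (k + 1 - 1) / H) ^ 2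
                  + (8 * ((0 : ℕ) : ℝ) + 1) * 6 * (wt r N (0 - 1) / H) ^ 2
                ≤ ∑ k ∈ range (N + 1), (54 / H ^ 2) * (((k : ℝ) + 1) * wt r N k ^ 2)
                  + 6 * (wt r N 0 ^ 2 / H ^ 2) := by
                  apply add_le_add
                  · apply sum_le_sum
                    intro k _
                    rw [div_pow]
                    have : (8 * ((k + 1 : ℕ) : ℝ) + 1) * 6 ≤ 54 * ((k : ℝ) + 1) := by
                      push_cast
                      linarith [(Nat.cast_nonneg k : (0 : ℝ) ≤ k)]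
                    calc (8 * ((k + 1 : ℕ) : ℝ) + 1) * 6 * (wt r N (k + 1 - 1) ^ 2 / H ^ 2)
                        ≤ 54 * ((k : ℝ) + 1) * (wt r N (k + 1 - 1) ^ 2 / H ^ 2) :=
                          mul_le_mul_of_nonneg_right this (by positivity)
                      _ = _ := by
                          rw [Nat.add_sub_cancel]
                          ring
                  · rw [div_pow]
                    simp
              _ = (54 / H ^ 2) * ∑ k ∈ range (N + 1), (((k : ℝ) + 1) * wt r N k ^ 2)
                  + (6 / H ^ 2) * ∑ k ∈ range 1, (((k : ℝ) + 1) * wt r N k ^ 2) := by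
                  rw [mul_sum]
                  simp
                  ring
              _ ≤ (54 / H ^ 2) * H + (6 / H ^ 2) * H :=
                  add_le_add (mul_le_mul_of_nonneg_left (sum_wt_sq_le r N _) (by positivity))
                    (mul_le_mul_of_nonneg_left (sum_wt_sq_le r N _) (by positivity))
              _ = 60 / H := by
                  field_simp
                  norm_num
      _ = 108 / H := by ring
      _ ≤ ε := by
          rw [div_le_iff₀ hHpos]
          rw [div_le_iff₀ hε] at hH2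
          linarith

/-- Summation by parts on the triangular lattice. -/
theorem caccioppoli (c : ℤ × ℤ → Fin 6 → ℝ) (hsymm : ∀ v i, c (v + dir i) (i + 3) = c v i)
    (h : ℤ × ℤ → ℝ) (hharm : ∀ v, ∑ i, c v i * (h (v + dir i) - h v) = 0)
    (φ : ℤ × ℤ → ℝ) (hφ : (Function.support φ).Finite) :
    ∑' v, ∑ i, c v i * (φ v * h v - φ (v + dir i) * h (v + dir i)) ^ 2
      = ∑' v, ∑ i, c v i * (h v * h (v + dir i) * (φ v - φ (v + dir i)) ^ 2) := by
  set F : ℤ × ℤ → Fin 6 → ℝ := fun v i => c v i * (h v - h (v + dir i)) * φ v ^ 2 * h v with hF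
  set G : ℤ × ℤ → Fin 6 → ℝ := fun v i =>
    c v i * (h v - h (v + dir i)) * φ (v + dir i) ^ 2 * h (v + dir i) with hG
  have hFsum : ∀ v, ∑ i, F v i = 0 := by
    intro v
    have : ∑ i, F v i = - (φ v ^ 2 * h v) * ∑ i, c v i * (h (v + dir i) - h v) := by
      rw [mul_sum]
      apply sum_congr rfl
      intro i _
      rw [hF]
      ring
    rw [this, hharm, mul_zero]
  have hGF : ∀ v i, G v i = - F (v + dir i) (i + 3) := by
    intro v i
    rw [hF, hG]
    simp only
    rw [hsymm, dir_add_three]
    have : v + dir i + - dir i = v := by abel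
    rw [this]
    ring
  have hshift : ∀ i, (Function.support (fun v => φ (v + dir i))).Finite := by
    intro i
    have : Function.support (fun v => φ (v + dir i)) = (fun v => v + dir i) ⁻¹' Function.support φ := rfl
    rw [this]
    exact hφ.preimage (add_left_injective (dir i)).injOn
  have hFs : ∀ i, Summable (fun v => F v i) := by
    intro i
    apply summable_of_hasFiniteSupport
    apply hφ.subset
    intro v hv hφv
    apply hv
    rw [hF]
    simp only
    simp [hφv]
  have hGs : ∀ i, Summable (fun v => G v i) := by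
    intro i
    apply summable_of_hasFiniteSupport
    apply (hshift i).subset
    intro v hv hφv
    apply hv
    rw [hG]
    simp only
    simp only at hφv
    simp [hφv]
  have hFtot : ∑ i, ∑' v, F v i = 0 := by
    rw [← Summable.tsum_finsetSum (fun i _ => hFs i)]
    simp [hFsum]
  have hGtot : ∑ i, ∑' v, G v i = 0 := by
    have h1 : ∀ i, ∑' v, G v i = - ∑' v, F v (i + 3) := by
      intro i
      rw [← (Equiv.addRight (dir i)).tsum_eq (fun v => F v (i + 3)), ← tsum_neg]
      apply tsum_congr
      intro v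
      rw [hGF]
      rfl
    simp_rw [h1]
    have h4 := Equiv.sum_comp (Equiv.addRight (3 : Fin 6)) (fun i => ∑' v, F v i)
    rw [sum_neg_distrib, ← neg_zero, ← hFtot, ← h4]
    rfl
  have hid : ∀ v i, F v i - G v i = c v i * (φ v * h v - φ (v + dir i) * h (v + dir i)) ^ 2
      - c v i * (h v * h (v + dir i) * (φ v - φ (v + dir i)) ^ 2) := by
    intro v i
    rw [hF, hG]
    ring
  have hAs : ∀ i, Summable (fun v => c v i * (φ v * h v - φ (v + dir i) * h (v + dir i)) ^ 2) := by
    intro i
    apply summable_of_hasFiniteSupport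
    apply (hφ.union (hshift i)).subset
    intro v hv
    by_contra hcon
    rw [Set.mem_union, not_or, Function.notMem_support, Function.notMem_support] at hcon
    apply hv
    simp only
    rw [hcon.1, hcon.2]
    simp
  have hBs : ∀ i, Summable (fun v => c v i * (h v * h (v + dir i) * (φ v - φ (v + dir i)) ^ 2)) := by
    intro i
    apply summable_of_hasFiniteSupport
    apply (hφ.union (hshift i)).subset
    intro v hv
    by_contra hcon
    rw [Set.mem_union, not_or, Function.notMem_support, Function.notMem_support] at hcon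
    apply hv
    simp only
    rw [hcon.1, hcon.2]
    simp
  rw [Summable.tsum_finsetSum (fun i _ => hAs i), Summable.tsum_finsetSum (fun i _ => hBs i),
    ← sub_eq_zero, ← sum_sub_distrib]
  have : ∑ i, (∑' v, F v i - ∑' v, G v i) = 0 := by
    rw [sum_sub_distrib, hFtot, hGtot, sub_zero]
  rw [← this]
  apply sum_congr rfl
  intro i _
  rw [← (hAs i).tsum_sub (hBs i), ← (hFs i).tsum_sub (hGs i)]
  apply tsum_congr
  intro v
  exact (hid v i).symm

/-- Liouville theorem for the triangular lattice with bounded positive symmetric conductances. -/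
theorem liouville (c : ℤ × ℤ → Fin 6 → ℝ) (hpos : ∀ v i, 0 < c v i) (hle : ∀ v i, c v i ≤ 1)
    (hsymm : ∀ v i, c (v + dir i) (i + 3) = c v i)
    (h : ℤ × ℤ → ℝ) (B : ℝ) (hB : ∀ v, |h v| ≤ B)
    (hharm : ∀ v, ∑ i, c v i * (h (v + dir i) - h v) = 0) (v : ℤ × ℤ) (i : Fin 6) :
    h (v + dir i) = h v := by
  have hB0 : 0 ≤ B := le_trans (abs_nonneg _) (hB 0)
  have key : ∀ ε > 0, c v i * (h v - h (v + dir i)) ^ 2 ≤ B ^ 2 * ε := by
    intro ε hε
    obtain ⟨φ, hφ, hφ1, hφe⟩ := exists_cutoff (nrm v + 1) ε hε
    have hid := caccioppoli c hsymm h hharm φ hφ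
    have hshift : ∀ i, (Function.support (fun v => φ (v + dir i))).Finite := by
      intro i
      have : Function.support (fun v => φ (v + dir i)) = (fun v => v + dir i) ⁻¹' Function.support φ := rfl
      rw [this]
      exact hφ.preimage (add_left_injective (dir i)).injOn
    have hfin : (Function.support φ ∪ ⋃ i, Function.support (fun v => φ (v + dir i))).Finite :=
      hφ.union (Set.finite_iUnion hshift)
    have hvan : ∀ w, w ∉ (Function.support φ ∪ ⋃ i, Function.support (fun v => φ (v + dir i))) →
        φ w = 0 ∧ ∀ i, φ (w + dir i) = 0 := by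
      intro w hw
      simp only [Set.mem_union, Set.mem_iUnion, not_or, not_exists, Function.notMem_support] at hw
      exact hw
    have hAs : Summable (fun w => ∑ i, c w i * (φ w * h w - φ (w + dir i) * h (w + dir i)) ^ 2) := by
      apply summable_of_hasFiniteSupport
      apply hfin.subset
      intro w hw
      by_contra hcon
      obtain ⟨h1, h2⟩ := hvan w hcon
      apply hw
      simp [h1, h2]
    have hBs : Summable (fun w => ∑ i, c w i * (h w * h (w + dir i) * (φ w - φ (w + dir i)) ^ 2)) := by
      apply summable_of_hasFiniteSupport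
      apply hfin.subset
      intro w hw
      by_contra hcon
      obtain ⟨h1, h2⟩ := hvan w hcon
      apply hw
      simp [h1, h2]
    have hEs : Summable (fun w => B ^ 2 * ∑ i, (φ w - φ (w + dir i)) ^ 2) := by
      apply summable_of_hasFiniteSupport
      apply hfin.subset
      intro w hw
      by_contra hcon
      obtain ⟨h1, h2⟩ := hvan w hcon
      apply hw
      simp [h1, h2]
    have h1 : c v i * (h v - h (v + dir i)) ^ 2 ≤
        ∑' w, ∑ i, c w i * (φ w * h w - φ (w + dir i) * h (w + dir i)) ^ 2 := by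
      calc c v i * (h v - h (v + dir i)) ^ 2
          = c v i * (φ v * h v - φ (v + dir i) * h (v + dir i)) ^ 2 := by
            rw [hφ1 v (by omega), hφ1 (v + dir i) (nrm_add_dir_le v i)]
            ring
        _ ≤ ∑ i, c v i * (φ v * h v - φ (v + dir i) * h (v + dir i)) ^ 2 :=
            single_le_sum (f := fun i => c v i * (φ v * h v - φ (v + dir i) * h (v + dir i)) ^ 2)
              (fun j _ => mul_nonneg (hpos v j).le (sq_nonneg _)) (mem_univ i)
        _ ≤ _ := hAs.le_tsum v (fun w _ => sum_nonneg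
              (fun j _ => mul_nonneg (hpos w j).le (sq_nonneg _)))
    have h2 : ∑' w, ∑ i, c w i * (h w * h (w + dir i) * (φ w - φ (w + dir i)) ^ 2)
        ≤ B ^ 2 * ε := by
      calc ∑' w, ∑ i, c w i * (h w * h (w + dir i) * (φ w - φ (w + dir i)) ^ 2)
          ≤ ∑' w, B ^ 2 * ∑ i, (φ w - φ (w + dir i)) ^ 2 := by
            apply hBs.tsum_le_tsum _ hEs
            intro w
            rw [mul_sum]
            apply sum_le_sum
            intro j _
            have h3 : h w * h (w + dir j) ≤ B ^ 2 := by
              calc h w * h (w + dir j) ≤ |h w * h (w + dir j)| := le_abs_self _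
                _ = |h w| * |h (w + dir j)| := abs_mul _ _
                _ ≤ B * B := mul_le_mul (hB _) (hB _) (abs_nonneg _) hB0
                _ = B ^ 2 := by ring
            calc c w j * (h w * h (w + dir j) * (φ w - φ (w + dir j)) ^ 2)
                ≤ c w j * (B ^ 2 * (φ w - φ (w + dir j)) ^ 2) :=
                  mul_le_mul_of_nonneg_left (mul_le_mul_of_nonneg_right h3 (sq_nonneg _)) (hpos w j).le
              _ ≤ 1 * (B ^ 2 * (φ w - φ (w + dir j)) ^ 2) :=
                  mul_le_mul_of_nonneg_right (hle w j) (by positivity)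
              _ = _ := one_mul _
        _ = B ^ 2 * ∑' w, ∑ i, (φ w - φ (w + dir i)) ^ 2 := tsum_mul_left
        _ ≤ B ^ 2 * ε := mul_le_mul_of_nonneg_left hφe (sq_nonneg B)
    rw [hid] at h1
    exact h1.trans h2
  have h0 : c v i * (h v - h (v + dir i)) ^ 2 ≤ 0 := by
    by_contra hcon
    push Not at hcon
    set x := c v i * (h v - h (v + dir i)) ^ 2
    have := key (x / (2 * (B ^ 2 + 1))) (by positivity)
    have h3 : B ^ 2 * (x / (2 * (B ^ 2 + 1))) < x := by
      rw [mul_div_assoc', div_lt_iff₀ (by positivity)]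
      nlinarith
    linarith
  have h1 : (h v - h (v + dir i)) ^ 2 ≤ 0 := by
    by_contra hcon
    push Not at hcon
    have := mul_pos (hpos v i) hcon
    linarith
  have h2 : h v - h (v + dir i) = 0 := by
    have := le_antisymm h1 (sq_nonneg _)
    exact pow_eq_zero_iff (two_ne_zero) |>.1 this
  linarith

/-! ### Variation of the angles -/

/-- logarithmic derivative of the face angle -/
noncomputable def K (a b c : ℝ) : ℝ := √(a * b * c / (a + b + c)) / (a + b)

theorem faceAngle_eq {a b c : ℝ} (ha : 0 < a) (hb : 0 < b) (hc : 0 < c) :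
    faceAngle a b c = arccos (1 - 2 * (b * c / ((a + b) * (a + c)))) := by
  unfold faceAngle
  congr 1
  field_simp
  ring

theorem K_symm (a b c : ℝ) : K a b c = K b a c := by
  unfold K
  rw [show a * b * c = b * a * c by ring, show a + b + c = b + a + c by ring, add_comm a b]

theorem K_pos {a b c : ℝ} (ha : 0 < a) (hb : 0 < b) (hc : 0 < c) : 0 < K a b c := by
  unfold K
  positivity

theorem K_le {a b c : ℝ} (ha : 0 < a) (hb : 0 < b) (hc : 0 < c) : K a b c ≤ 1 / 2 := by
  unfold K
  rw [div_le_iff₀ (by positivity)]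
  apply Real.sqrt_le_iff.2
  refine ⟨by positivity, ?_⟩
  rw [div_le_iff₀ (by positivity)]
  have h1 : 0 ≤ (a - b) ^ 2 := sq_nonneg _
  have h2 : 0 < a * b * (a + b) := by positivity
  nlinarith [mul_pos ha hb, mul_pos (mul_pos ha hb) hc, mul_nonneg hc.le h1,
    mul_nonneg (add_pos ha hb).le h1, mul_pos (mul_pos ha hb) ha, mul_pos (mul_pos ha hb) hb]

theorem hasDerivAt_faceAngle {p q s hp hq hs t : ℝ} :
    HasDerivAt (fun t => faceAngle (exp (p + t * hp)) (exp (q + t * hq)) (exp (s + t * hs)))
      (K (exp (p + t * hp)) (exp (q + t * hq)) (exp (s + t * hs)) * (hq - hp)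
        + K (exp (p + t * hp)) (exp (s + t * hs)) (exp (q + t * hq)) * (hs - hp)) t := by
  have key : ∀ x h : ℝ, HasDerivAt (fun t => exp (x + t * h)) (exp (x + t * h) * h) t := by
    intro x h
    have h1 : HasDerivAt (fun t : ℝ => x + t * h) h t := by
      simpa using ((hasDerivAt_id t).mul_const h).const_add x
    exact h1.exp
  have hA := key p hp
  have hB := key q hq
  have hC := key s hs
  have hcongr : (fun t => faceAngle (exp (p + t * hp)) (exp (q + t * hq)) (exp (s + t * hs)))
      = fun t => arccos (1 - 2 * (exp (q + t * hq) * exp (s + t * hs) /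
        ((exp (p + t * hp) + exp (q + t * hq)) * (exp (p + t * hp) + exp (s + t * hs))))) := by
    funext t
    exact faceAngle_eq (exp_pos _) (exp_pos _) (exp_pos _)
  rw [hcongr]
  have ha : 0 < exp (p + t * hp) := exp_pos _
  have hb : 0 < exp (q + t * hq) := exp_pos _
  have hc : 0 < exp (s + t * hs) := exp_pos _
  have hden : ((exp (p + t * hp) + exp (q + t * hq)) * (exp (p + t * hp) + exp (s + t * hs))) ≠ 0 := by
    positivity
  have hP := (((hB.mul hC).div ((hA.add hB).mul (hA.add hC)) hden).const_mul 2).const_sub 1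
  set a := exp (p + t * hp) with hadef
  set b := exp (q + t * hq) with hbdef
  set c := exp (s + t * hs) with hcdef
  have hS : 0 < √(a * b * c / (a + b + c)) := by positivity
  set S := √(a * b * c / (a + b + c)) with hSdef
  have hS2 : S ^ 2 * (a + b + c) = a * b * c := by
    rw [hSdef, Real.sq_sqrt (by positivity)]
    field_simp
  have hphi_lt : 1 - 2 * (b * c / ((a + b) * (a + c))) ≠ 1 := by
    have : 0 < b * c / ((a + b) * (a + c)) := by positivity
    linarith
  have hphi_gt : 1 - 2 * (b * c / ((a + b) * (a + c))) ≠ -1 := by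
    have : b * c / ((a + b) * (a + c)) < 1 := by
      rw [div_lt_one (by positivity)]
      nlinarith [mul_pos ha hb, mul_pos ha hc, mul_pos ha ha]
    linarith
  have hsq : √(1 - (1 - 2 * (b * c / ((a + b) * (a + c)))) ^ 2)
      = 2 * S * (a + b + c) / ((a + b) * (a + c)) := by
    rw [Real.sqrt_eq_iff_mul_self_eq_of_pos (by positivity)]
    have : S ^ 2 = a * b * c / (a + b + c) := by
      field_simp
      linarith
    have h3 : 2 * S * (a + b + c) / ((a + b) * (a + c)) * (2 * S * (a + b + c) / ((a + b) * (a + c)))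
      = 4 * S ^ 2 * (a + b + c) ^ 2 / ((a + b) * (a + c)) ^ 2 := by
      field_simp
      ring
    rw [h3, this]
    field_simp
    ring
  have hcomp := (Real.hasDerivAt_arccos hphi_gt hphi_lt).comp t (by
    simpa using hP)
  refine HasDerivAt.congr_deriv hcomp ?_
  rw [hsq]
  unfold K
  rw [show a * c * b / (a + c + b) = a * b * c / (a + b + c) by ring_nf, ← hSdef]
  simp only [← hadef, ← hbdef, ← hcdef]
  field_simp
  rw [hS2]
  ring

theorem K_continuous (p q s hp hq hs : ℝ) : Continuous (fun t : ℝ =>
    K (exp (p + t * hp)) (exp (q + t * hq)) (exp (s + t * hs))) := by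
  unfold K
  apply Continuous.div
  · apply Real.continuous_sqrt.comp
    apply Continuous.div
    · fun_prop
    · fun_prop
    · intro t
      positivity
  · fun_prop
  · intro t
    positivity

/-- averaged conductance of an edge, seen from one of its two faces -/
noncomputable def Cf (p q s hp hq hs : ℝ) : ℝ :=
  ∫ t in (0 : ℝ)..1, K (exp (p + t * hp)) (exp (q + t * hq)) (exp (s + t * hs))

theorem Cf_symm (p q s hp hq hs : ℝ) : Cf p q s hp hq hs = Cf q p s hq hp hs := by
  unfold Cf
  congr 1
  funext t
  rw [K_symm]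

theorem Cf_pos (p q s hp hq hs : ℝ) : 0 < Cf p q s hp hq hs := by
  unfold Cf
  apply intervalIntegral.intervalIntegral_pos_of_pos
  · exact (K_continuous p q s hp hq hs).intervalIntegrable _ _
  · intro t
    exact K_pos (exp_pos _) (exp_pos _) (exp_pos _)
  · norm_num

theorem Cf_le (p q s hp hq hs : ℝ) : Cf p q s hp hq hs ≤ 1 / 2 := by
  unfold Cf
  calc ∫ t in (0 : ℝ)..1, K (exp (p + t * hp)) (exp (q + t * hq)) (exp (s + t * hs))
      ≤ ∫ _t in (0 : ℝ)..1, (1 / 2 : ℝ) := by
        apply intervalIntegral.integral_mono_on (by norm_num)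
        · exact (K_continuous p q s hp hq hs).intervalIntegrable _ _
        · exact continuous_const.intervalIntegrable _ _
        · intro t _
          exact K_le (exp_pos _) (exp_pos _) (exp_pos _)
    _ = 1 / 2 := by simp

theorem faceAngle_sub (p q s hp hq hs : ℝ) :
    faceAngle (exp (p + hp)) (exp (q + hq)) (exp (s + hs))
      - faceAngle (exp p) (exp q) (exp s)
    = Cf p q s hp hq hs * (hq - hp) + Cf p s q hp hs hq * (hs - hp) := by
  have h := intervalIntegral.integral_eq_sub_of_hasDerivAt (a := 0) (b := 1)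
    (f := fun t => faceAngle (exp (p + t * hp)) (exp (q + t * hq)) (exp (s + t * hs)))
    (f' := fun t => K (exp (p + t * hp)) (exp (q + t * hq)) (exp (s + t * hs)) * (hq - hp)
        + K (exp (p + t * hp)) (exp (s + t * hs)) (exp (q + t * hq)) * (hs - hp))
    (fun t _ => hasDerivAt_faceAngle)
    ((((K_continuous p q s hp hq hs).mul continuous_const).add
      ((K_continuous p s q hp hs hq).mul continuous_const)).intervalIntegrable _ _)
  simp only [one_mul, zero_mul, add_zero] at h
  rw [← h, intervalIntegral.integral_add, intervalIntegral.integral_mul_const,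
    intervalIntegral.integral_mul_const]
  · rfl
  · exact ((K_continuous p q s hp hq hs).mul continuous_const).intervalIntegrable _ _
  · exact ((K_continuous p s q hp hs hq).mul continuous_const).intervalIntegrable _ _

/-! ### The ring lemma -/

theorem chord (p q : ℂ) (A B : ℝ) (hA : 0 < A) (hB : 0 < B) (hp : ‖p‖ = A) (hq : ‖q‖ = B) :
    ‖p / A - q / B‖ ^ 2 * (A * B) = ‖p - q‖ ^ 2 - (A - B) ^ 2 := by
  have hp2 : p.re ^ 2 + p.im ^ 2 = A ^ 2 := by
    rw [← hp, Complex.sq_norm, Complex.normSq_apply]
    ring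
  have hq2 : q.re ^ 2 + q.im ^ 2 = B ^ 2 := by
    rw [← hq, Complex.sq_norm, Complex.normSq_apply]
    ring
  rw [Complex.sq_norm, Complex.sq_norm, Complex.normSq_apply, Complex.normSq_apply]
  simp only [Complex.sub_re, Complex.sub_im, Complex.div_ofReal_re, Complex.div_ofReal_im]
  have h1 : ((p.re / A - q.re / B) * (p.re / A - q.re / B)
      + (p.im / A - q.im / B) * (p.im / A - q.im / B)) * (A * B)
      = ((p.re ^ 2 + p.im ^ 2) / A ^ 2 + (q.re ^ 2 + q.im ^ 2) / B ^ 2
        - 2 * (p.re * q.re + p.im * q.im) / (A * B)) * (A * B) := by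
    field_simp
    ring
  rw [h1, hp2, hq2, div_self (by positivity), div_self (by positivity), sub_mul,
    div_mul_cancel₀ _ (by positivity)]
  linear_combination -hp2 - hq2

theorem split_le {a b ε : ℝ} (hε : 0 ≤ ε) (h : a * b ≤ ε ^ 2) : a ≤ ε ∨ b ≤ ε := by
  by_contra hcon
  push Not at hcon
  nlinarith [hcon.1, hcon.2]

theorem faceAngle_lt_pi {a b c : ℝ} (ha : 0 < a) (hb : 0 < b) (hc : 0 < c) :
    faceAngle a b c < π := by
  rw [faceAngle_eq ha hb hc]
  have h1 : b * c / ((a + b) * (a + c)) < 1 := by
    rw [div_lt_one (by positivity)]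
    nlinarith [mul_pos ha hb, mul_pos ha hc, mul_pos ha ha]
  have h2 : arccos (1 - 2 * (b * c / ((a + b) * (a + c)))) ≠ π := by
    intro h
    rw [Real.arccos_eq_pi] at h
    linarith
  exact lt_of_le_of_ne (Real.arccos_le_pi _) h2

theorem faceAngle_lt_small {a b c : ℝ} (ha : 0 < a) (hb : 0 < b) (hc : 0 < c)
    (h : b * c / ((a + b) * (a + c)) ≤ 1 / 16) : faceAngle a b c < π / 5 := by
  rw [faceAngle_eq ha hb hc]
  have h5 : cos (π / 5) < 1 - 2 * (b * c / ((a + b) * (a + c))) := by
    rw [Real.cos_pi_div_five]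
    have h6 : √5 < 2.3 := by
      rw [Real.sqrt_lt' (by norm_num)]
      norm_num
    linarith
  have hpi := Real.pi_pos
  calc arccos (1 - 2 * (b * c / ((a + b) * (a + c)))) < arccos (cos (π / 5)) := by
        apply Real.arccos_lt_arccos
        · exact Real.neg_one_le_cos _
        · exact h5
        · have : 0 < b * c / ((a + b) * (a + c)) := by positivity
          linarith
    _ = π / 5 := Real.arccos_cos (by positivity) (by linarith)

/-- Quantitative ring lemma for a univalent flower with six petals. -/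
theorem ring_lemma (z0 : ℂ) (R0 : ℝ) (z : Fin 6 → ℂ) (r : Fin 6 → ℝ) (hR0 : 0 < R0)
    (hr : ∀ i, 0 < r i) (h0 : ∀ i, dist z0 (z i) = R0 + r i)
    (hadj : ∀ i, dist (z i) (z (i + 1)) = r i + r (i + 1))
    (hdis : ∀ i j, i ≠ j → r i + r j ≤ dist (z i) (z j))
    (hsum : ∑ i, faceAngle R0 (r i) (r (i + 1)) = 2 * π) (i₀ : Fin 6) :
    (1 / 2) ^ 60 * R0 ≤ r i₀ := by
  set y : Fin 6 → ℝ := fun i => √(r i / (R0 + r i)) with hy
  have hypos : ∀ i, 0 < y i := fun i => Real.sqrt_pos.2 (div_pos (hr i) (by linarith [hr i]))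
  have hysq : ∀ i, y i ^ 2 = r i / (R0 + r i) := fun i =>
    Real.sq_sqrt (div_pos (hr i) (by linarith [hr i])).le
  have hylt : ∀ i, y i < 1 := by
    intro i
    have h1 : y i ^ 2 < 1 := by
      rw [hysq, div_lt_one (by linarith [hr i])]
      linarith
    nlinarith [hypos i]
  set e : Fin 6 → ℂ := fun i => (z i - z0) / ((R0 + r i : ℝ) : ℂ) with he
  have hnorm : ∀ i, ‖z i - z0‖ = R0 + r i := by
    intro i
    rw [← dist_eq_norm, dist_comm, h0]
  have hchord : ∀ i j, ‖e i - e j‖ ^ 2 * ((R0 + r i) * (R0 + r j))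
      = dist (z i) (z j) ^ 2 - (r i - r j) ^ 2 := by
    intro i j
    have := chord (z i - z0) (z j - z0) (R0 + r i) (R0 + r j) (by linarith [hr i])
      (by linarith [hr j]) (hnorm i) (hnorm j)
    rw [he]
    simp only
    rw [this, dist_eq_norm]
    congr 2
    · congr 1
      ring
    · ring
  have hyy : ∀ i j, (2 * y i * y j) ^ 2 * ((R0 + r i) * (R0 + r j)) = 4 * r i * r j := by
    intro i j
    have h1 : (2 * y i * y j) ^ 2 = 4 * y i ^ 2 * y j ^ 2 := by ring
    rw [h1, hysq, hysq]
    have := hr i
    have := hr j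
    field_simp
  have hge : ∀ i j, i ≠ j → 2 * y i * y j ≤ ‖e i - e j‖ := by
    intro i j hij
    apply le_of_sq_le_sq _ (norm_nonneg _)
    have hpos : 0 < (R0 + r i) * (R0 + r j) :=
      mul_pos (by linarith [hr i]) (by linarith [hr j])
    apply le_of_mul_le_mul_right _ hpos
    rw [hyy, hchord]
    have h1 := hdis i j hij
    have h2 : (r i + r j) ^ 2 ≤ dist (z i) (z j) ^ 2 :=
      pow_le_pow_left₀ (by linarith [hr i, hr j]) h1 2
    nlinarith
  have hle : ∀ i, ‖e i - e (i + 1)‖ ≤ 2 * y i * y (i + 1) := by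
    intro i
    apply le_of_sq_le_sq _ (by have := hypos i; have := hypos (i + 1); positivity)
    have hpos : 0 < (R0 + r i) * (R0 + r (i + 1)) :=
      mul_pos (by linarith [hr i]) (by linarith [hr (i + 1)])
    apply le_of_mul_le_mul_right _ hpos
    rw [hyy, hchord, hadj]
    nlinarith
  have htri : ∀ a b c : ℂ, ‖a - c‖ ≤ ‖a - b‖ + ‖b - c‖ := fun a b c => norm_sub_le_norm_sub_add_norm_sub a b c
  -- the three inequalities
  have I1 : ∀ i, y i * y (i + 1 + 1) ≤ y i * y (i + 1) + y (i + 1) * y (i + 1 + 1) := by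
    intro i
    have h1 := hge i (i + 1 + 1) (by fin_cases i <;> decide)
    have h2 := hle i
    have h3 := hle (i + 1)
    have h4 := htri (e i) (e (i + 1)) (e (i + 1 + 1))
    nlinarith
  have I2 : ∀ i, y i * y (i + 1 + 1 + 1) ≤ y i * y (i + 1) + y (i + 1) * y (i + 1 + 1)
      + y (i + 1 + 1) * y (i + 1 + 1 + 1) := by
    intro i
    have h1 := hge i (i + 1 + 1 + 1) (by fin_cases i <;> decide)
    have h2 := hle i
    have h3 := hle (i + 1)
    have h5 := hle (i + 1 + 1)
    have h4 := htri (e i) (e (i + 1)) (e (i + 1 + 1))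
    have h6 := htri (e i) (e (i + 1 + 1)) (e (i + 1 + 1 + 1))
    nlinarith
  have I3 : ∀ i, y i * y (i + 1 + 1 + 1 + 1) ≤ y i * y (i + 1) + y (i + 1) * y (i + 1 + 1)
      + y (i + 1 + 1) * y (i + 1 + 1 + 1) + y (i + 1 + 1 + 1) * y (i + 1 + 1 + 1 + 1) := by
    intro i
    have h1 := hge i (i + 1 + 1 + 1 + 1) (by fin_cases i <;> decide)
    have h2 := hle i
    have h3 := hle (i + 1)
    have h5 := hle (i + 1 + 1)
    have h7 := hle (i + 1 + 1 + 1)
    have h4 := htri (e i) (e (i + 1)) (e (i + 1 + 1))
    have h6 := htri (e i) (e (i + 1 + 1)) (e (i + 1 + 1 + 1))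
    have h8 := htri (e i) (e (i + 1 + 1 + 1)) (e (i + 1 + 1 + 1 + 1))
    nlinarith
  have hprod : ∀ i j δ, (y i ≤ δ ∨ y j ≤ δ) → 0 ≤ δ → y i * y j ≤ δ := by
    intro i j δ h hδ
    rcases h with h | h
    · nlinarith [hypos i, hypos j, hylt i, hylt j]
    · nlinarith [hypos i, hypos j, hylt i, hylt j]
  have hback : ∀ j : Fin 6, ∃ i, j = i + 1 := by
    intro j
    exact ⟨j + 5, by fin_cases j <;> rfl⟩
  by_contra hcon
  push Not at hcon
  have P1 : ∃ i, y (i + 1) ≤ (1 / 2) ^ 30 := by
    obtain ⟨i, hi⟩ := hback i₀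
    refine ⟨i, ?_⟩
    rw [← hi]
    apply le_of_sq_le_sq _ (by positivity)
    rw [hysq, div_le_iff₀ (by linarith [hr i₀])]
    have h1 : (((1 : ℝ) / 2) ^ 30) ^ 2 = (1 / 2) ^ 60 := by norm_num
    rw [h1]
    have := hr i₀
    have h2 : (0 : ℝ) < (1 / 2) ^ 60 := by positivity
    nlinarith
  have P2 : ∃ i, y (i + 1) ≤ (1 / 2) ^ 14 ∧ y (i + 1 + 1) ≤ (1 / 2) ^ 14 := by
    obtain ⟨i, hi⟩ := P1
    have h1 := I1 i
    have h2 := hprod i (i + 1) _ (Or.inr hi) (by positivity)
    have h3 := hprod (i + 1) (i + 1 + 1) _ (Or.inl hi) (by positivity)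
    have h4 : y i * y (i + 1 + 1) ≤ ((1 / 2) ^ 14) ^ 2 := by
      norm_num at h1 h2 h3 ⊢
      linarith
    have hi' : y (i + 1) ≤ (1 / 2) ^ 14 := hi.trans (by norm_num)
    rcases split_le (by positivity) h4 with h | h
    · obtain ⟨k, hk⟩ := hback i
      rw [hk] at h hi'
      exact ⟨k, h, hi'⟩
    · exact ⟨i, hi', h⟩
  have P3 : ∃ i, y (i + 1) ≤ (1 / 2) ^ 6 ∧ y (i + 1 + 1) ≤ (1 / 2) ^ 6 ∧
      y (i + 1 + 1 + 1) ≤ (1 / 2) ^ 6 := by
    obtain ⟨i, hi, hj⟩ := P2
    have h1 := I2 i
    have h2 := hprod i (i + 1) _ (Or.inr hi) (by positivity)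
    have h3 := hprod (i + 1) (i + 1 + 1) _ (Or.inl hi) (by positivity)
    have h5 := hprod (i + 1 + 1) (i + 1 + 1 + 1) _ (Or.inl hj) (by positivity)
    have h4 : y i * y (i + 1 + 1 + 1) ≤ ((1 / 2) ^ 6) ^ 2 := by
      norm_num at h1 h2 h3 h5 ⊢
      linarith
    have hi' : y (i + 1) ≤ (1 / 2) ^ 6 := hi.trans (by norm_num)
    have hj' : y (i + 1 + 1) ≤ (1 / 2) ^ 6 := hj.trans (by norm_num)
    rcases split_le (by positivity) h4 with h | h
    · obtain ⟨k, hk⟩ := hback i
      rw [hk] at h hi' hj'
      exact ⟨k, h, hi', hj'⟩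
    · exact ⟨i, hi', hj', h⟩
  have P4 : ∃ i, y (i + 1) ≤ 1 / 4 ∧ y (i + 1 + 1) ≤ 1 / 4 ∧
      y (i + 1 + 1 + 1) ≤ 1 / 4 ∧ y (i + 1 + 1 + 1 + 1) ≤ 1 / 4 := by
    obtain ⟨i, hi, hj, hl⟩ := P3
    have h1 := I3 i
    have h2 := hprod i (i + 1) _ (Or.inr hi) (by positivity)
    have h3 := hprod (i + 1) (i + 1 + 1) _ (Or.inl hi) (by positivity)
    have h5 := hprod (i + 1 + 1) (i + 1 + 1 + 1) _ (Or.inl hj) (by positivity)
    have h6 := hprod (i + 1 + 1 + 1) (i + 1 + 1 + 1 + 1) _ (Or.inl hl) (by positivity)
    have h4 : y i * y (i + 1 + 1 + 1 + 1) ≤ (1 / 4) ^ 2 := by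
      norm_num at h1 h2 h3 h5 h6 ⊢
      linarith
    have hi' : y (i + 1) ≤ 1 / 4 := hi.trans (by norm_num)
    have hj' : y (i + 1 + 1) ≤ 1 / 4 := hj.trans (by norm_num)
    have hl' : y (i + 1 + 1 + 1) ≤ 1 / 4 := hl.trans (by norm_num)
    rcases split_le (by positivity) h4 with h | h
    · obtain ⟨k, hk⟩ := hback i
      rw [hk] at h hi' hj' hl'
      exact ⟨k, h, hi', hj', hl'⟩
    · exact ⟨i, hi', hj', hl', h⟩
  obtain ⟨i, hi1, hi2, hi3, hi4⟩ := P4
  have small : ∀ j, y j * y (j + 1) ≤ 1 / 4 → faceAngle R0 (r j) (r (j + 1)) < π / 5 := by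
    intro j hj
    apply faceAngle_lt_small hR0 (hr j) (hr (j + 1))
    have h1 : r j * r (j + 1) / ((R0 + r j) * (R0 + r (j + 1))) = (y j * y (j + 1)) ^ 2 := by
      rw [mul_pow, hysq, hysq, div_mul_div_comm]
    rw [h1]
    have h2 : 0 ≤ y j * y (j + 1) := mul_nonneg (hypos _).le (hypos _).le
    nlinarith
  have s0 := small i (hprod i (i + 1) _ (Or.inr hi1) (by norm_num))
  have s1 := small (i + 1) (hprod _ _ _ (Or.inl hi1) (by norm_num))
  have s2 := small (i + 1 + 1) (hprod _ _ _ (Or.inl hi2) (by norm_num))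
  have s3 := small (i + 1 + 1 + 1) (hprod _ _ _ (Or.inl hi3) (by norm_num))
  have s4 := small (i + 1 + 1 + 1 + 1) (hprod _ _ _ (Or.inl hi4) (by norm_num))
  have s5 : faceAngle R0 (r (i + 1 + 1 + 1 + 1 + 1)) (r (i + 1 + 1 + 1 + 1 + 1 + 1)) < π :=
    faceAngle_lt_pi hR0 (hr _) (hr _)
  have hs := Equiv.sum_comp (Equiv.addLeft i) (fun j => faceAngle R0 (r j) (r (j + 1)))
  rw [hsum, Fin.sum_univ_six] at hs
  simp only [Equiv.coe_addLeft] at hs
  have e0 : i + 0 = i := add_zero i
  have e2 : i + 2 = i + 1 + 1 := by fin_cases i <;> rfl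
  have e3 : i + 3 = i + 1 + 1 + 1 := by fin_cases i <;> rfl
  have e4 : i + 4 = i + 1 + 1 + 1 + 1 := by fin_cases i <;> rfl
  have e5 : i + 5 = i + 1 + 1 + 1 + 1 + 1 := by fin_cases i <;> rfl
  rw [e0, e2, e3, e4, e5] at hs
  linarith

/-! ### The main theorem -/

theorem ring_bound {z : ℤ × ℤ → ℂ} {R : ℤ × ℤ → ℝ} (hP : IsCirclePacking z R)
    (hU : LocallyUnivalent z R) (v : ℤ × ℤ) (i : Fin 6) :
    (1 / 2) ^ 60 * R v ≤ R (v + dir i) := by
  refine ring_lemma (z v) (R v) (fun i => z (v + dir i)) (fun i => R (v + dir i))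
    (hP.label.pos v) (fun i => hP.label.pos _) (fun i => hP.tangent v i) ?_ ?_
    (hP.label.angleSum_eq v) i
  · intro j
    have h := hP.tangent (v + dir j) (j + 2)
    have e : v + dir j + dir (j + 2) = v + dir (j + 1) := by
      rw [add_assoc]
      congr 1
      fin_cases j <;> rfl
    rw [e] at h
    exact h
  · intro j k hjk
    have h := (hU v).2 j k hjk
    rwa [disjoint_ball_ball_iff (hP.label.pos _) (hP.label.pos _)] at h

theorem const_of_dir (f : ℤ × ℤ → ℝ) (h0 : ∀ v, f (v + dir 0) = f v) (h1 : ∀ v, f (v + dir 1) = f v)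
    (v : ℤ × ℤ) : f v = f (0, 0) := by
  have e0 : ∀ n m : ℤ, f (n + 1, m) = f (n, m) := by
    intro n m
    have := h0 (n, m)
    simpa [dir] using this
  have e1 : ∀ n m : ℤ, f (n, m + 1) = f (n, m) := by
    intro n m
    have := h1 (n, m)
    simpa [dir] using this
  have A : ∀ n m : ℤ, f (n, m) = f (0, m) := by
    intro n m
    induction n using Int.induction_on with
    | zero => rfl
    | succ i ih => rw [e0, ih]
    | pred i ih =>
      have := e0 (-(i : ℤ) - 1) m
      rw [sub_add_cancel] at this
      rw [← this, ih]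
  have B : ∀ m : ℤ, f (0, m) = f (0, 0) := by
    intro m
    induction m using Int.induction_on with
    | zero => rfl
    | succ i ih => rw [e1, ih]
    | pred i ih =>
      have := e1 0 (-(i : ℤ) - 1)
      rw [sub_add_cancel] at this
      rw [← this, ih]
  obtain ⟨n, m⟩ := v
  rw [A, B]

theorem shift_const {R : ℤ × ℤ → ℝ} (hL : IsPackingLabel R) (B : ℝ)
    (hB : ∀ v i, |log (R (v + dir i)) - log (R v)| ≤ B) (k : Fin 6) (v : ℤ × ℤ) :
    log (R (v + dir k)) - log (R v) = log (R ((0, 0) + dir k)) - log (R (0, 0)) := by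
  set u : ℤ × ℤ → ℝ := fun v => log (R v) with hu
  set h : ℤ × ℤ → ℝ := fun v => u (v + dir k) - u v with hh
  have hexp : ∀ v, exp (u v) = R v := fun v => Real.exp_log (hL.pos v)
  have hexp2 : ∀ v, exp (u v + h v) = R (v + dir k) := by
    intro v
    have : u v + h v = u (v + dir k) := by rw [hh]; ring
    rw [this, hexp]
  set c : ℤ × ℤ → Fin 6 → ℝ := fun v i =>
    Cf (u v) (u (v + dir i)) (u (v + dir (i + 1))) (h v) (h (v + dir i)) (h (v + dir (i + 1)))
    + Cf (u v) (u (v + dir i)) (u (v + dir (i + 5))) (h v) (h (v + dir i)) (h (v + dir (i + 5)))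
    with hc
  have hpos : ∀ v i, 0 < c v i := fun v i => add_pos (Cf_pos _ _ _ _ _ _) (Cf_pos _ _ _ _ _ _)
  have hle : ∀ v i, c v i ≤ 1 := by
    intro v i
    have h1 := Cf_le (u v) (u (v + dir i)) (u (v + dir (i + 1))) (h v) (h (v + dir i)) (h (v + dir (i + 1)))
    have h2 := Cf_le (u v) (u (v + dir i)) (u (v + dir (i + 5))) (h v) (h (v + dir i)) (h (v + dir (i + 5)))
    rw [hc]
    simp only
    linarith
  have hsymm : ∀ v i, c (v + dir i) (i + 3) = c v i := by
    intro v i
    have e1 : v + dir i + dir (i + 3) = v := by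
      rw [dir_add_three]
      abel
    have e2 : v + dir i + dir (i + 3 + 1) = v + dir (i + 5) := by
      rw [add_assoc]
      congr 1
      fin_cases i <;> rfl
    have e3 : v + dir i + dir (i + 3 + 5) = v + dir (i + 1) := by
      rw [add_assoc]
      congr 1
      fin_cases i <;> rfl
    rw [hc]
    simp only
    rw [e1, e2, e3, add_comm, Cf_symm, Cf_symm (u (v + dir i)) (u v) (u (v + dir (i + 5)))]
  have hharm : ∀ v, ∑ i, c v i * (h (v + dir i) - h v) = 0 := by
    intro v
    have hs1 := hL.angleSum_eq v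
    have hs2 := hL.angleSum_eq (v + dir k)
    have hface : ∀ i, faceAngle (R (v + dir k)) (R (v + dir k + dir i)) (R (v + dir k + dir (i + 1)))
        - faceAngle (R v) (R (v + dir i)) (R (v + dir (i + 1)))
        = Cf (u v) (u (v + dir i)) (u (v + dir (i + 1))) (h v) (h (v + dir i)) (h (v + dir (i + 1)))
            * (h (v + dir i) - h v)
          + Cf (u v) (u (v + dir (i + 1))) (u (v + dir i)) (h v) (h (v + dir (i + 1))) (h (v + dir i))
            * (h (v + dir (i + 1)) - h v) := by
      intro i
      rw [← faceAngle_sub, hexp2, hexp2, hexp2, hexp, hexp, hexp, add_right_comm v (dir k) (dir i),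
        add_right_comm v (dir k) (dir (i + 1))]
    have hre : ∑ i, Cf (u v) (u (v + dir (i + 1))) (u (v + dir i)) (h v) (h (v + dir (i + 1))) (h (v + dir i))
            * (h (v + dir (i + 1)) - h v)
        = ∑ i, Cf (u v) (u (v + dir i)) (u (v + dir (i + 5))) (h v) (h (v + dir i)) (h (v + dir (i + 5)))
            * (h (v + dir i) - h v) := by
      rw [← Equiv.sum_comp (Equiv.addRight (1 : Fin 6)) (fun i =>
        Cf (u v) (u (v + dir i)) (u (v + dir (i + 5))) (h v) (h (v + dir i)) (h (v + dir (i + 5)))
            * (h (v + dir i) - h v))]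
      apply Finset.sum_congr rfl
      intro i _
      simp only [Equiv.coe_addRight]
      have : i + 1 + 5 = i := by fin_cases i <;> rfl
      rw [this]
    have htot : ∑ i, (faceAngle (R (v + dir k)) (R (v + dir k + dir i)) (R (v + dir k + dir (i + 1)))
        - faceAngle (R v) (R (v + dir i)) (R (v + dir (i + 1)))) = 0 := by
      rw [Finset.sum_sub_distrib, hs1, hs2, sub_self]
    rw [← htot]
    simp_rw [hface]
    rw [Finset.sum_add_distrib, hre, ← Finset.sum_add_distrib]
    apply Finset.sum_congr rfl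
    intro i _
    rw [hc]
    ring
  have hcon := liouville c hpos hle hsymm h B (fun v => hB v k) hharm
  exact const_of_dir h (fun v => hcon v 0) (fun v => hcon v 1) v

theorem result (z : ℤ × ℤ → ℂ) (R : ℤ × ℤ → ℝ) (hP : IsCirclePacking z R)
    (hU : LocallyUnivalent z R) :
    ∃ a b c : ℝ, 0 < a ∧ 0 < b ∧ 0 < c ∧ ∀ n m : ℤ, R (n, m) = c * a ^ n * b ^ m := by
  have hL := hP.label
  have hone : ∀ v i, log (R v) - 60 * log 2 ≤ log (R (v + dir i)) := by
    intro v i
    have h := ring_bound hP hU v i
    have h2 : log ((1 / 2) ^ 60 * R v) ≤ log (R (v + dir i)) :=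
      Real.log_le_log (mul_pos (by positivity) (hL.pos v)) h
    rw [Real.log_mul (by positivity) (hL.pos v).ne', Real.log_pow, one_div, Real.log_inv] at h2
    push_cast at h2
    linarith
  have hB : ∀ v i, |log (R (v + dir i)) - log (R v)| ≤ 60 * log 2 := by
    intro v i
    have h1 := hone v i
    have h2 := hone (v + dir i) (i + 3)
    have e1 : v + dir i + dir (i + 3) = v := by
      rw [dir_add_three]
      abel
    rw [e1] at h2
    rw [abs_le]
    constructor <;> linarith
  set α := log (R ((0, 0) + dir 0)) - log (R (0, 0)) with hα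
  set β := log (R ((0, 0) + dir 1)) - log (R (0, 0)) with hβ
  have key : ∀ v, log (R v) - (v.1 : ℝ) * α - (v.2 : ℝ) * β = log (R (0, 0)) := by
    intro v
    have h0 : ∀ v : ℤ × ℤ, log (R (v + dir 0)) - ((v + dir 0).1 : ℝ) * α - ((v + dir 0).2 : ℝ) * β
        = log (R v) - (v.1 : ℝ) * α - (v.2 : ℝ) * β := by
      intro v
      have := shift_const hL _ hB 0 v
      rw [← hα] at this
      simp [dir]
      simp [dir] at this
      linarith
    have h1 : ∀ v : ℤ × ℤ, log (R (v + dir 1)) - ((v + dir 1).1 : ℝ) * α - ((v + dir 1).2 : ℝ) * β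
        = log (R v) - (v.1 : ℝ) * α - (v.2 : ℝ) * β := by
      intro v
      have := shift_const hL _ hB 1 v
      rw [← hβ] at this
      simp [dir]
      simp [dir] at this
      linarith
    have := const_of_dir (fun v : ℤ × ℤ => log (R v) - (v.1 : ℝ) * α - (v.2 : ℝ) * β) h0 h1 v
    simpa using this
  refine ⟨exp α, exp β, R (0, 0), exp_pos _, exp_pos _, hL.pos _, ?_⟩
  intro n m
  have h := key (n, m)
  simp only at h
  have h2 : log (R (n, m)) = log (R (0, 0)) + n * α + m * β := by linarith
  rw [← Real.exp_log (hL.pos (n, m)), h2, Real.exp_add, Real.exp_add, Real.exp_log (hL.pos _),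
    mul_comm (n : ℝ) α, mul_comm (m : ℝ) β, Real.exp_mul, Real.exp_mul, Real.rpow_intCast,
    Real.rpow_intCast]

end Pool.Agent.Results.MP_5725d1_gt.DoyleRigidity
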